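import Mathlib
import Pool.Agent.H.MP_a16b96_lc.A

set_option autoImplicit false

namespace Pool.Agent.H.MP_24213f_lc

open Set Filter Function Cardinal TopologicalSpace

/-- continuum-dense subset of the Cantor space -/
def Dn (A : Set (ℕ → Bool)) : Prop := ∀ U, IsOpen U → U.Nonempty → #(A ∩ U :) = 𝔠

/-- `X` strongly avoids `Y` -/
def SA (X Y : Set (ℕ → Bool)) : Prop :=
  ∀ Z ⊆ X, #Z = #X → ∀ f : Z → Y, Continuous f → #(range f) < #X

/-- `X` totally avoids `Y` -/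
def TA (X Y : Set (ℕ → Bool)) : Prop :=
  ∀ Z ⊆ X, #Z = #X → ∀ f : Z → Y, Continuous f → (range f).Countable

/-- the pseudointersection number -/
noncomputable def pp : Cardinal.{0} :=
  sInf {c | ∃ 𝓕 : Set (Set ℕ), (∀ t ⊆ 𝓕, t.Finite → (⋂₀ t).Infinite) ∧
    (¬ ∃ P : Set ℕ, P.Infinite ∧ ∀ S ∈ 𝓕, (P \ S).Finite) ∧ #𝓕 = c}

/-- cov(M) -/
noncomputable def covM : Cardinal.{0} :=
  sInf {c | ∃ F : Set (Set (ℕ → Bool)), (∀ M ∈ F, IsMeagre M) ∧ ⋃₀ F = Set.univ ∧ #F = c}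

instance : PerfectSpace (ℕ → Bool) := perfectSpace_iff_forall_not_isolated.2 fun x =>
  mem_closure_iff_nhdsWithin_neBot.1 (mem_closure_of_tendsto (b := atTop)
    (f := fun n => update x n !x n) (tendsto_pi_nhds.2 fun i => tendsto_const_nhds.congr'
      ((eventually_gt_atTop i).mono fun n h => (update_of_ne h.ne _ _).symm))
    (.of_forall fun n h => by simpa using congrFun h n))

theorem op (b : Bool) : IsOpen {x : ℕ → Bool | x 0 = b} :=
  (continuous_apply (0 : ℕ) : Continuous fun x : ℕ → Bool => x 0).isOpen_preimage {b}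
    (isOpen_discrete _)

theorem bas : ∃ B : ℕ → Set (ℕ → Bool), (∀ k, IsOpen (B k) ∧ (B k).Nonempty) ∧
    ∀ U x, IsOpen U → x ∈ U → ∃ k, x ∈ B k ∧ B k ⊆ U := by
  obtain ⟨B, h⟩ := (countable_countableBasis (ℕ → Bool)).exists_eq_range
    (let ⟨V, v, _⟩ := (isBasis_countableBasis _).exists_subset_of_mem_open (mem_univ default)
      isOpen_univ; ⟨V, v⟩)
  refine ⟨B, fun k => ⟨isOpen_of_mem_countableBasis (h ▸ ⟨k, rfl⟩),
    nonempty_of_mem_countableBasis (h ▸ ⟨k, rfl⟩)⟩, fun U x u v => ?_⟩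
  obtain ⟨V, v1, v2⟩ := (isBasis_countableBasis _).exists_subset_of_mem_open v u
  obtain ⟨k, rfl⟩ := h ▸ v1
  exact ⟨k, v2⟩

theorem av {ι : Type} (h : #ι < covM) (M : ι → Set (ℕ → Bool)) (hM : ∀ i, IsMeagre (M i))
    {U : Set (ℕ → Bool)} (u1 : IsOpen U) (u2 : U.Nonempty) : ∃ x ∈ U, ∀ i, x ∉ M i := by
  by_contra! c
  let φ : (ℕ → Bool) → (ℕ → Bool) ≃ₜ (ℕ → Bool) := fun t => ⟨(show Involutive fun x n =>
    xor (x n) (t n) from fun x => by simp).toPerm, by simp; fun_prop, by simp; fun_prop⟩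
  refine (mk_range_le.trans_lt h).not_ge (csInf_le' ⟨range fun i => ⋃ n, φ (denseSeq _ n) ⁻¹' M i,
    forall_mem_range.2 fun i => isMeagre_iUnion fun n => (hM i).preimage_of_isOpenMap
      (φ _).continuous (φ _).isOpenMap, eq_univ_of_forall fun x => ?_, rfl⟩)
  obtain ⟨n, hn⟩ := (denseRange_denseSeq _).exists_mem_open (u1.preimage (φ x).continuous)
    (u2.preimage (φ x).surjective)
  obtain ⟨i, hi⟩ := c _ hn
  exact ⟨_, ⟨i, rfl⟩, mem_iUnion.2 ⟨n, by
    simpa [φ, Bool.xor_comm (x _)] using hi⟩⟩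

theorem fib {F : (ℕ → Bool) → ℕ → Bool} (h : Measurable F) :
    {y | ¬ IsMeagre (F ⁻¹' {y})}.Countable := by
  obtain ⟨B, b1, b2⟩ := bas
  have : ∀ y : {y | ¬ IsMeagre (F ⁻¹' {y})}, ∃ k, ∀ᶠ x in residual _, x ∈ B k → F x = y := fun y => by
    obtain ⟨O, o1, o2⟩ := (h (measurableSet_singleton y.1)).residualEq_isOpen
    obtain ⟨x, hx⟩ : O.Nonempty := nonempty_iff_ne_empty.2 fun e => y.2 (by
      exact (eventuallyEq_set.1 o2).mono fun x h c => by simpa [e] using h.1 c)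
    obtain ⟨k, -, k2⟩ := b2 O x o1 hx
    exact ⟨k, (eventuallyEq_set.1 o2).mono fun x h c => h.2 (k2 c)⟩
  choose k hk using this
  refine countable_coe_iff.1 (Injective.countable (f := k) fun a b e => ?_)
  obtain ⟨x, x1, x2, x3⟩ := (dense_of_mem_residual ((hk a).and (hk b))).inter_open_nonempty _
    (b1 (k a)).1 (b1 _).2
  exact Subtype.ext ((x2 x1).symm.trans (x3 (e ▸ x1)))

theorem strong (h : covM = 𝔠) : ∃ X Y, Dn X ∧ Dn Y ∧ SA X Y ∧ SA Y X := by
  classical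
  obtain ⟨B, b1, b2⟩ := bas
  let I := (𝔠 : Cardinal.{0}).ord.ToType
  have hI : #I = 𝔠 := mk_ord_toType _
  have lt : ∀ a : I, #(Iic a) < 𝔠 := fun a =>
    (mk_Iic_lt a (by simp [I]) (aleph0_le_continuum.trans hI.ge)).trans_eq hI
  obtain ⟨j⟩ : Nonempty (I ≃ (Bool × ℕ) × (ℕ → Set ℕ)) := Cardinal.eq.1 (by simp [hI])
  let F : I → (ℕ → Bool) → ℕ → Bool := fun a x n => decide (∃ k ∈ (j a).2 n, x ∈ B k)
  have mF : ∀ a, Measurable (F a) := fun a => measurable_pi_lambda _ fun n =>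
    measurable_to_bool (by
      simp only [F, preimage, mem_singleton_iff, decide_eq_true_eq, ofPred_exists]
      exact .iUnion fun k => .inter (.const _) (b1 k).1.measurableSet)
  let P : ∀ b : I, (∀ c, c < b → ℕ → Bool) → (ℕ → Bool) → Prop := fun b z x => x ∈ B (j b).1.2 ∧
    ∀ c h, x ≠ z c h ∧ ∀ a < b, x ≠ F a (z c h) ∧ (IsMeagre (F a ⁻¹' {z c h}) → F a x ≠ z c h)
  let z : I → ℕ → Bool := wellFounded_lt.fix fun b ih => Classical.epsilon (P b ih)
  have hz : ∀ b, P b (fun c _ => z c) (z b) := fun b => by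
    rw [show z b = _ from wellFounded_lt.fix_eq _ b]
    apply Classical.epsilon_spec
    have := (mk_le_mk_of_subset (Iio_subset_Iic_self (a := b))).trans_lt (lt b)
    obtain ⟨x, x1, x2⟩ := av (ι := Iio b × Iio b) ((mul_lt_of_lt aleph0_le_continuum this this).trans_eq h.symm)
      (fun q => {z q.1, F q.2 (z q.1)} ∪ {x | IsMeagre (F q.2 ⁻¹' {z q.1}) ∧ F q.2 x = z q.1})
      (fun q => (MP_a16b96_lc.cm (to_countable _)).union (by
        by_cases c : IsMeagre (F q.2 ⁻¹' {z q.1})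
        exacts [c.mono fun x h => h.2, by simp [c, IsMeagre.empty]])) (b1 (j b).1.2).1 (b1 _).2
    exact ⟨x, x1, fun c h => ⟨fun e => x2 (⟨c, h⟩, ⟨c, h⟩) (.inl (.inl e)), fun a h' =>
      ⟨fun e => x2 (⟨c, h⟩, ⟨a, h'⟩) (.inl (.inr e)), fun m e => x2 (⟨c, h⟩, ⟨a, h'⟩) (.inr ⟨m, e⟩)⟩⟩⟩
  have zi : Injective z := fun a b e => by_contra fun c => (lt_or_gt_of_ne c).elim
    (fun c => ((hz b).2 a c).1 e.symm) fun c => ((hz a).2 b c).1 e
  have d : ∀ t, Dn (z '' {b | (j b).1.1 = t}) := fun t U u1 ⟨x, u2⟩ => by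
    obtain ⟨k, -, k2⟩ := b2 U x u1 u2
    refine ((mk_set_le _).trans (by simp)).antisymm (le_trans (by simp) (mk_le_of_injective
      (f := fun c : ℕ → Set ℕ => ⟨z (j.symm ((t, k), c)), ⟨_, by simp, rfl⟩, k2 (by
        simpa using (hz (j.symm ((t, k), c))).1)⟩) fun a b e => ?_))
    simpa using zi (congrArg Subtype.val e)
  have s : ∀ t, SA (z '' {b | (j b).1.1 = t}) (z '' {b | (j b).1.1 = !t}) := fun t Z z1 _ f hf => by
    choose U u1 u2 using fun n => isOpen_induced_iff.1 ((isOpen_discrete {true}).preimage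
      ((continuous_apply n).comp (continuous_subtype_val.comp hf)))
    let a := j.symm ((t, 0), fun n => {k | B k ⊆ U n})
    have : ∀ x : Z, F a x = f x := fun x => funext fun n => by
      have := Set.ext_iff.1 (u2 n) x
      simp only [F, a, Equiv.apply_symm_apply]
      refine Bool.eq_iff_iff.2 (decide_eq_true_iff.trans (Iff.trans ⟨fun ⟨k, a, b⟩ => a b, fun h =>
        (b2 _ _ (u1 n) h).imp fun k => And.symm⟩ this))
    have e := d t _ isOpen_univ univ_nonempty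
    rw [inter_univ] at e
    rw [← mk_image_eq Subtype.val_injective, e]
    refine (mk_le_mk_of_subset (t := (F a ∘ z) '' Iic a ∪ {y | ¬ IsMeagre (F a ⁻¹' {y})})
      ?_).trans_lt ((mk_union_le _ _).trans_lt (add_lt_of_lt aleph0_le_continuum
        (mk_image_le.trans_lt (lt a)) ((le_aleph0_iff_set_countable.2 (fib
          (mF a))).trans_lt aleph0_lt_continuum)))
    rintro _ ⟨_, ⟨x, rfl⟩, rfl⟩
    obtain ⟨b, h1, h2⟩ := z1 x.2
    obtain ⟨c, h3, h4⟩ := (f x).2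
    refine or_iff_not_imp_left.2 fun e m => ?_
    have := (h2 ▸ this x).trans h4.symm
    have ab : a < b := not_le.1 fun g => e ⟨b, g, this.trans h4⟩
    rcases lt_trichotomy b c with g | rfl | g
    · exact (((hz c).2 b g).2 a (ab.trans g)).1 this.symm
    · simp_all
    · exact (((hz b).2 c g).2 a ab).2 (h4.symm ▸ m :) this
  exact ⟨_, _, d true, d false, s true, s false⟩

theorem total (h : ℵ₁ < pp) {X Y : Set (ℕ → Bool)} (hX : Dn X) (hY : Dn Y) : ¬ TA X Y := by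
  classical
  intro H
  obtain ⟨B, b1, b2⟩ := bas
  have o : ∀ b, #(X ∩ {x | x 0 = b} :) = 𝔠 := fun b => hX _ (op b) ⟨fun _ => b, rfl⟩
  obtain ⟨J, j1, j2⟩ := le_mk_iff_exists_subset.1 (aleph_one_le_continuum.trans (o false).ge)
  obtain ⟨y⟩ := (le_def J Y).1 (j2.trans_le (aleph_one_le_continuum.trans (by
    simpa using (hY _ isOpen_univ univ_nonempty).ge)))
  obtain ⟨D, hD⟩ := exists_surjective_nat (Finset (ℕ × ℕ × Bool))
  let S : J × ℕ → Set ℕ := fun q => {m | (∃ k, q.1.1 ∈ B k ∧ (q.2, k, (y q.1).1 q.2) ∈ D m.unpair.1)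
    ∧ ∀ n k b, q.1.1 ∈ B k → (n, k, b) ∈ D m.unpair.1 → b = (y q.1).1 n}
  have : ∃ P : Set ℕ, P.Infinite ∧ ∀ s ∈ range S, (P \ s).Finite := by_contra fun c =>
    (lt_of_le_of_lt (mk_range_le.trans (by simp [j2])) h).not_ge (csInf_le' ⟨range S, fun t t1 t2 => by
      obtain ⟨t, -, t3, rfl⟩ := t2.exists_subset_finite_image_eq (image_univ ▸ t1)
      obtain ⟨t, rfl⟩ := t3.exists_finset_coe
      choose k k1 k2 using fun q : J × ℕ => b2 _ q.1.1 (((t.finite_toSet.image fun q => q.1.1).sdiff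
        (t := {q.1.1})).isClosed.isOpen_compl) fun c => c.2 rfl
      obtain ⟨m, hm⟩ := hD (t.image fun q => (q.2, k q, (y q.1).1 q.2))
      refine infinite_of_injective_forall_mem (f := Nat.pair m) (fun a b h =>
        (Nat.pair_eq_pair.1 h).2) fun i => mem_sInter.2 (forall_mem_image.2 fun q hq => ?_)
      simp only [S, mem_ofPred_eq, Nat.unpair_pair, hm, Finset.mem_image]
      refine ⟨⟨_, k1 q, q, hq, rfl⟩, ?_⟩
      rintro _ _ _ c ⟨r, r1, ⟨⟩⟩
      rw [Subtype.ext (by_contra fun e => k2 r c ⟨⟨q, hq, rfl⟩, e⟩ : q.1.1 = r.1.1)], c, rfl⟩)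
  obtain ⟨P, p1, p2⟩ := this
  have : Uncountable J := aleph0_lt_mk_iff.1 (j2 ▸ aleph0_lt_aleph_one)
  obtain ⟨Q, hQ⟩ := exists_uncountable_fiber (fun a : J => (p2 _ ⟨(a, 0), rfl⟩).toFinset)
    (by simp [j2])
  let W := (fun a : J => (p2 _ ⟨(a, 0), rfl⟩).toFinset) ⁻¹' {Q}
  obtain ⟨⟨a₀, -⟩⟩ : Nonempty W := inferInstance
  let g : (ℕ → Bool) → Y := fun x => if h : x ∈ J then y ⟨x, h⟩ else y a₀
  refine not_countable_iff.2 hQ (Countable.mono (fun a ha => ?_)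
    ((H (Subtype.val '' W ∪ X ∩ {x | x 0 = true}) (union_subset (fun _ ⟨a, _, e⟩ => e ▸ (j1 a.2).1)
      inter_subset_left) ?_ (fun x => g x) ?_).preimage y.injective)).to_subtype
  · exact ⟨⟨a, .inl ⟨a, ha, rfl⟩⟩, by simp [g]⟩
  · refine le_antisymm (mk_le_mk_of_subset (union_subset (fun _ ⟨a, _, e⟩ => e ▸ (j1 a.2).1)
      inter_subset_left)) (((mk_set_le _).trans (by simp)).trans ((o true).ge.trans
        (mk_le_mk_of_subset subset_union_right)))
  refine continuous_induced_rng.2 (continuous_pi fun n => IsLocallyConstant.continuous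
    ((IsLocallyConstant.iff_exists_open _).2 ?_))
  have nJ : ∀ x : ℕ → Bool, x 0 = true → x ∉ J := fun x h c => by simpa [h] using (j1 c).2
  rintro ⟨_, ⟨a, ha, rfl⟩ | hx⟩
  · obtain ⟨m, ⟨⟨m1, m2⟩, m3⟩⟩ := ((p1.sdiff (p2 _ ⟨(a, n), rfl⟩)).sdiff Q.finite_toSet).nonempty
    obtain ⟨⟨k, k1, k2⟩, -⟩ : m ∈ S (a, n) := by_contra fun c => m2 ⟨m1, c⟩
    refine ⟨Subtype.val ⁻¹' (B k ∩ {x | x 0 = false}), ((b1 k).1.inter (op _)).preimage
      continuous_subtype_val,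
      ⟨k1, (j1 a.2).2⟩, ?_⟩
    rintro ⟨_, ⟨b, hb, rfl⟩ | hx⟩ c
    · have : m ∈ S (b, 0) := by_contra fun c => m3 (hb ▸ (Finite.mem_toFinset _).2 ⟨m1, c⟩)
      simpa [g] using (this.2 _ _ _ c.1 k2).symm
    · exact absurd (hx.2.symm.trans c.2) (by simp)
  · exact ⟨Subtype.val ⁻¹' {x | x 0 = true}, (op _).preimage continuous_subtype_val, hx.2, fun x c => by
        simp [g, nJ _ c, nJ _ hx.2]⟩

end Pool.Agent.H.MP_24213f_lc
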